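import Pool.Agent.T9h20.TF.Spec

/-!
# Alternations of bounded relative height: polynomials
-/

set_option autoImplicit false

open MeasureTheory Set Filter Topology

namespace Pool.Agent.T9h20.TF

open Pool.Agent.T9h20.TA (mon mx sel isSel_sel)
open Pool.Agent.T9h20.TE (DD)

section asm1

variable {k q t : ℕ}

/-- The value of the expression at `x`. -/
noncomputable def ev (b : Fin k → ℝ) (d : Fin k → ℕ) (al : Fin k → Fin q → ℕ)
    (e : Fin q → Fin t → ℕ) (u : Fin q → Fin t → ℝ) (x : ℝ) : ℝ :=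
  ∑ i, b i * x ^ d i * ∏ j, (∑ s, u j s * x ^ e j s) ^ al i j

/-- The size of the product `i` at `x > 0`. -/
noncomputable def sz (b : Fin k → ℝ) (d : Fin k → ℕ) (al : Fin k → Fin q → ℕ)
    (e : Fin q → Fin t → ℕ) (u : Fin q → Fin t → ℝ) (i : Fin k) (x : ℝ) : ℝ :=
  |b i| * x ^ d i * ∏ j, (⨆ s, |u j s| * x ^ e j s) ^ al i j

theorem ev_exp (b : Fin k → ℝ) (d : Fin k → ℕ) (al : Fin k → Fin q → ℕ)
    (e : Fin q → Fin t → ℕ) (u : Fin q → Fin t → ℝ) (y : ℝ) :
    ev b d al e u (Real.exp y) =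
      Fr b (fun i => (d i : ℝ)) al u (fun j s => (e j s : ℝ)) y := by
  unfold ev Fr mon
  simp only [← Real.exp_nat_mul]

theorem sz_exp [NeZero t] (b : Fin k → ℝ) (d : Fin k → ℕ) (al : Fin k → Fin q → ℕ)
    (e : Fin q → Fin t → ℕ) (u : Fin q → Fin t → ℝ) (i : Fin k) (y : ℝ) :
    sz b d al e u i (Real.exp y) =
      MM b (fun i => (d i : ℝ)) al u (fun j s => (e j s : ℝ)) i y := by
  have h : ∀ j, (⨆ s, |u j s| * Real.exp y ^ e j s) =
      mx (u j) (fun s => (e j s : ℝ)) y := by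
    intro j
    have h1 : ∀ s, |u j s| * Real.exp y ^ e j s = |mon (u j) (fun s => (e j s : ℝ)) s y| := by
      intro s
      unfold mon
      rw [abs_mul, Real.abs_exp, ← Real.exp_nat_mul]
    simp only [h1]
    refine le_antisymm (ciSup_le fun s => (isSel_sel (u j) (fun s => (e j s : ℝ)) y).1 s) ?_
    exact le_ciSup (f := fun s => |mon (u j) (fun s => (e j s : ℝ)) s y|)
      (Set.finite_range _).bddAbove (sel (u j) (fun s => (e j s : ℝ)) y)
  unfold sz MM
  simp only [h]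
  rw [← Real.exp_nat_mul]

/-- The numbers. -/
theorem numF (k q t m D N n : ℕ) (hk : 1 ≤ k) (hq : 1 ≤ q) (ht : 1 ≤ t) (hD : 1 ≤ D)
    (Y T : ℝ) (hY : 1 ≤ Y) (hn : (n : ℝ) ≤ 1 + T)
    (h : (N : ℝ) + 1 ≤ (2 * q * t + 1) * ((18 * ((k : ℝ) ^ 2 + 2) *
      Real.log (1 + 2 * (Y + 1) * ((m + 1) * D)) + 1) * (n + 1))) :
    (N : ℝ) + 1 ≤
      165 * k ^ 2 * q * t * Real.log (1 + 2 * (Y + 1) * ((m + 1) * D)) * (2 + T) := by
  have hk' : (1 : ℝ) ≤ k := by exact_mod_cast hk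
  have hq' : (1 : ℝ) ≤ q := by exact_mod_cast hq
  have ht' : (1 : ℝ) ≤ t := by exact_mod_cast ht
  have hD' : (1 : ℝ) ≤ D := by exact_mod_cast hD
  have hm' : (0 : ℝ) ≤ m := Nat.cast_nonneg m
  have hn0 : (0 : ℝ) ≤ n := Nat.cast_nonneg n
  set L := Real.log (1 + 2 * (Y + 1) * ((m + 1) * D)) with hL
  have hL1 : 1 ≤ L := by
    rw [hL, Real.le_log_iff_exp_le (by positivity)]
    have h1 : Real.exp 1 < 3 := Real.exp_one_lt_three
    have h2 : (1 : ℝ) ≤ (m + 1) * D := by nlinarith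
    nlinarith
  have hqt : (1 : ℝ) ≤ q * t := by nlinarith
  have h1 : 2 * (q : ℝ) * t + 1 ≤ 3 * (q * t) := by nlinarith
  have hk2 : (1 : ℝ) ≤ (k : ℝ) ^ 2 := by nlinarith
  have hkL : (1 : ℝ) ≤ (k : ℝ) ^ 2 * L := by nlinarith
  have h2 : 18 * ((k : ℝ) ^ 2 + 2) * L + 1 ≤ 55 * ((k : ℝ) ^ 2 * L) := by nlinarith
  have h3 : (n : ℝ) + 1 ≤ 2 + T := by linarith
  have h4 : (2 * (q : ℝ) * t + 1) * ((18 * ((k : ℝ) ^ 2 + 2) * L + 1) * (n + 1)) ≤
      (3 * (q * t)) * ((55 * ((k : ℝ) ^ 2 * L)) * (2 + T)) := by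
    have h5 : (18 * ((k : ℝ) ^ 2 + 2) * L + 1) * (n + 1) ≤
        (55 * ((k : ℝ) ^ 2 * L)) * (2 + T) :=
      mul_le_mul h2 h3 (by positivity) (by positivity)
    exact mul_le_mul h1 h5 (by positivity) (by positivity)
  have h6 : (3 * ((q : ℝ) * t)) * ((55 * ((k : ℝ) ^ 2 * L)) * (2 + T)) =
      165 * k ^ 2 * q * t * L * (2 + T) := by ring
  linarith

/-- Sign alternations (or roots separated by high points) of a polynomial. -/
theorem main_pos (hT : STot) {m D : ℕ} (hk : 1 ≤ k) (hq : 1 ≤ q) (ht : 1 ≤ t) (hD : 1 ≤ D)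
    (b : Fin k → ℝ) (d : Fin k → ℕ) (al : Fin k → Fin q → ℕ) (e : Fin q → Fin t → ℕ)
    (u : Fin q → Fin t → ℝ) (hal : ∀ i, ∑ j, al i j ≤ m) (hd : ∀ i, d i ≤ D)
    (he : ∀ j s, e j s ≤ D) (hu : ∀ j, ∃ s, u j s ≠ 0) (A Y : ℝ) (hA : 0 < A)
    (hA1 : A ≤ 1) (hY : 1 ≤ Y) (N : ℕ) (x : ℕ → ℝ) (hx : ∀ l, l < N → x l < x (l + 1))
    (hxY : ∀ l, l ≤ N → x l ∈ Icc (Real.exp (-Y)) (Real.exp Y))
    (hz : ∀ l, l < N → ∃ z ∈ Ioo (x l) (x (l + 1)), ev b d al e u z = 0)
    (hne : ∀ l, l ≤ N → ev b d al e u (x l) ≠ 0)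
    (hh : ∀ l, l ≤ N → ∀ i, A * sz b d al e u i (x l) ≤ |ev b d al e u (x l)|) :
    (N : ℝ) + 1 ≤ 165 * k ^ 2 * q * t * Real.log (1 + 2 * (Y + 1) * ((m + 1) * D)) *
      (2 + Real.logb 3 (k * (t : ℝ) ^ m / A)) := by
  have : NeZero t := ⟨by omega⟩
  have hk' : (1 : ℝ) ≤ k := by exact_mod_cast hk
  have ht' : (1 : ℝ) ≤ t := by exact_mod_cast ht
  have htm : (1 : ℝ) ≤ (t : ℝ) ^ m := one_le_pow₀ ht'
  have hK : (1 : ℝ) ≤ k * (t : ℝ) ^ m / A := by
    rw [le_div_iff₀ hA]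
    nlinarith
  have hT0 : 0 ≤ Real.logb 3 (k * (t : ℝ) ^ m / A) := Real.logb_nonneg (by norm_num) hK
  -- the sequence of the logarithms, extended to a strictly monotone one
  have hpos : ∀ l, l ≤ N → 0 < x l := fun l hl => (Real.exp_pos _).trans_le (hxY l hl).1
  set y : ℕ → ℝ := fun l => if l ≤ N then Real.log (x l) else Real.log (x N) + (l - N : ℕ)
    with hy
  have hyN : ∀ l, l ≤ N → y l = Real.log (x l) := fun l hl => if_pos hl
  have hyexp : ∀ l, l ≤ N → Real.exp (y l) = x l := fun l hl => by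
    rw [hyN l hl, Real.exp_log (hpos l hl)]
  have hmono : StrictMono y := by
    refine strictMono_nat_of_lt_succ fun l => ?_
    rcases lt_trichotomy l N with h | h | h
    · rw [hyN l h.le, hyN (l + 1) h]
      exact Real.log_lt_log (hpos l h.le) (hx l h)
    · subst h
      rw [hyN l le_rfl]
      simp only [hy]
      rw [if_neg (by omega)]
      have : ((l + 1 - l : ℕ) : ℝ) = 1 := by
        rw [Nat.add_sub_cancel_left]
        norm_num
      linarith
    · simp only [hy]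
      rw [if_neg (by omega), if_neg (by omega)]
      have : ((l - N : ℕ) : ℝ) < ((l + 1 - N : ℕ) : ℝ) := by
        exact_mod_cast (by omega : l - N < l + 1 - N)
      linarith
  have hyY : ∀ l, l ≤ N → y l ∈ Ioo (-(Y + 1)) (Y + 1) := by
    intro l hl
    rw [hyN l hl]
    have h1 := (Real.le_log_iff_exp_le (hpos l hl)).mpr (hxY l hl).1
    have h2 := (Real.log_le_iff_le_exp (hpos l hl)).mpr (hxY l hl).2
    constructor <;> linarith
  have hb : ∃ i, b i ≠ 0 := by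
    by_contra hcon
    push Not at hcon
    apply hne 0 (Nat.zero_le _)
    unfold ev
    simp [hcon]
  set T := Real.logb 3 (k * (t : ℝ) ^ m / A) with hTdef
  set n : ℕ := ⌊1 + T⌋₊ with hn
  have hn1 : (n : ℝ) ≤ 1 + T := Nat.floor_le (by linarith)
  have hn2 : 1 + T < (n : ℝ) + 1 := Nat.lt_floor_add_one _
  have hcond : 3 * (k * (t : ℝ) ^ m) < A * 3 ^ (n + 1) := by
    have h1 : (3 : ℝ) ^ (1 + T) < (3 : ℝ) ^ ((n : ℝ) + 1) :=
      Real.rpow_lt_rpow_of_exponent_lt (by norm_num) hn2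
    rw [Real.rpow_add (by norm_num), Real.rpow_one, hTdef,
      Real.rpow_logb (by norm_num) (by norm_num) (by linarith)] at h1
    have h2 : (3 : ℝ) ^ ((n : ℝ) + 1) = 3 ^ (n + 1) := by
      rw [← Real.rpow_natCast]
      push_cast
      rfl
    rw [h2] at h1
    have h3 := mul_lt_mul_of_pos_left h1 hA
    have h4 : A * (3 * (k * (t : ℝ) ^ m / A)) = 3 * (k * (t : ℝ) ^ m) := by
      field_simp
    linarith
  have h := hT k q t m b (fun i => (d i : ℝ)) al u (fun j s => (e j s : ℝ)) D (Y + 1) A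
    (by exact_mod_cast hD) (by linarith) hA hal
    (fun i => ⟨Nat.cast_nonneg _, by exact_mod_cast hd i⟩)
    (fun j s => ⟨Nat.cast_nonneg _, by exact_mod_cast he j s⟩) hu hb N n y hmono hyY
    (fun l hl => by
      obtain ⟨z, hz1, hz2⟩ := hz l hl
      have hz0 : 0 < z := (hpos l hl.le).trans hz1.1
      refine ⟨Real.log z, ⟨?_, ?_⟩, ?_⟩
      · rw [hyN l hl.le]
        exact Real.log_lt_log (hpos l hl.le) hz1.1
      · rw [hyN (l + 1) hl]
        exact Real.log_lt_log hz0 hz1.2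
      · rw [← ev_exp, Real.exp_log hz0]
        exact hz2)
    (fun l hl => by
      rw [← ev_exp, hyexp l hl]
      exact hne l hl)
    (fun l hl i => by
      rw [← ev_exp, ← sz_exp, hyexp l hl]
      exact hh l hl i)
    hcond
  exact numF k q t m D N n hk hq ht hD Y T hY hn1 h

/-- Reflection. -/
theorem ev_neg (b : Fin k → ℝ) (d : Fin k → ℕ) (al : Fin k → Fin q → ℕ)
    (e : Fin q → Fin t → ℕ) (u : Fin q → Fin t → ℝ) (x : ℝ) :
    ev (fun i => b i * (-1) ^ d i) d al e (fun j s => u j s * (-1) ^ e j s) x =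
      ev b d al e u (-x) := by
  unfold ev
  refine Finset.sum_congr rfl fun i _ => ?_
  rw [neg_pow x (d i)]
  have h : ∀ j s, u j s * (-1) ^ e j s * x ^ e j s = u j s * (-x) ^ e j s := by
    intro j s
    rw [neg_pow x (e j s)]
    ring
  simp only [h]
  ring

theorem sz_neg (b : Fin k → ℝ) (d : Fin k → ℕ) (al : Fin k → Fin q → ℕ)
    (e : Fin q → Fin t → ℕ) (u : Fin q → Fin t → ℝ) (i : Fin k) (x : ℝ) :
    sz (fun i => b i * (-1) ^ d i) d al e (fun j s => u j s * (-1) ^ e j s) i x =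
      sz b d al e u i x := by
  unfold sz
  simp only [abs_mul, abs_pow, abs_neg, abs_one, one_pow, mul_one]

/-- Both half-lines. -/
theorem main_all (hT : STot) {m D : ℕ} (hk : 1 ≤ k) (hq : 1 ≤ q) (ht : 1 ≤ t) (hD : 1 ≤ D)
    (b : Fin k → ℝ) (d : Fin k → ℕ) (al : Fin k → Fin q → ℕ) (e : Fin q → Fin t → ℕ)
    (u : Fin q → Fin t → ℝ) (hal : ∀ i, ∑ j, al i j ≤ m) (hd : ∀ i, d i ≤ D)
    (he : ∀ j s, e j s ≤ D) (hu : ∀ j, ∃ s, u j s ≠ 0) (A Y : ℝ) (hA : 0 < A)
    (hA1 : A ≤ 1) (hY : 1 ≤ Y) (N : ℕ) (x : ℕ → ℝ) (hx : ∀ l, l < N → x l < x (l + 1))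
    (hxY : ∀ l, l ≤ N → |x l| ∈ Icc (Real.exp (-Y)) (Real.exp Y))
    (hz : ∀ l, l < N → ∃ z ∈ Ioo (x l) (x (l + 1)), ev b d al e u z = 0)
    (hne : ∀ l, l ≤ N → ev b d al e u (x l) ≠ 0)
    (hh : ∀ l, l ≤ N → ∀ i, A * sz b d al e u i |x l| ≤ |ev b d al e u (x l)|) :
    (N : ℝ) + 1 ≤ 330 * k ^ 2 * q * t * Real.log (1 + 2 * (Y + 1) * ((m + 1) * D)) *
      (2 + Real.logb 3 (k * (t : ℝ) ^ m / A)) := by
  set X : ℝ := 165 * k ^ 2 * q * t * Real.log (1 + 2 * (Y + 1) * ((m + 1) * D)) *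
      (2 + Real.logb 3 (k * (t : ℝ) ^ m / A)) with hX
  have hX2 : 330 * (k : ℝ) ^ 2 * q * t * Real.log (1 + 2 * (Y + 1) * ((m + 1) * D)) *
      (2 + Real.logb 3 (k * (t : ℝ) ^ m / A)) = X + X := by
    rw [hX]
    ring
  rw [hX2]
  have hx0 : ∀ l, l ≤ N → x l ≠ 0 := by
    intro l hl h0
    have h1 := (hxY l hl).1
    rw [h0, abs_zero] at h1
    exact absurd h1 (not_le.mpr (Real.exp_pos _))
  have hmono : ∀ l l', l ≤ l' → l' ≤ N → x l ≤ x l' := by
    intro l l' hll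
    induction l', hll using Nat.le_induction with
    | base => intro _; exact le_rfl
    | succ n hn ih => intro h; exact (ih (by omega)).trans (hx n (by omega)).le
  -- positive segments
  have hP : ∀ l0, l0 ≤ N → 0 < x l0 → ((N - l0 : ℕ) : ℝ) + 1 ≤ X := by
    intro l0 hl0 h0
    have hpos : ∀ l, l ≤ N - l0 → 0 < x (l0 + l) := fun l hl =>
      lt_of_lt_of_le h0 (hmono l0 (l0 + l) (by omega) (by omega))
    refine main_pos hT hk hq ht hD b d al e u hal hd he hu A Y hA hA1 hY (N - l0)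
      (fun l => x (l0 + l)) (fun l hl => hx (l0 + l) (by omega))
      (fun l hl => ?_) (fun l hl => hz (l0 + l) (by omega)) (fun l hl => hne (l0 + l) (by omega))
      (fun l hl i => ?_)
    · have h1 := hxY (l0 + l) (by omega)
      rw [abs_of_pos (hpos l hl)] at h1
      exact h1
    · have h1 := hh (l0 + l) (by omega) i
      rw [abs_of_pos (hpos l hl)] at h1
      exact h1
  -- negative segments
  have hNeg : ∀ l0, l0 ≤ N → x l0 < 0 → (l0 : ℝ) + 1 ≤ X := by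
    intro l0 hl0 h0
    have hneg : ∀ l, l ≤ l0 → x (l0 - l) < 0 := fun l hl =>
      lt_of_le_of_lt (hmono (l0 - l) l0 (by omega) hl0) h0
    have hX3 := main_pos hT hk hq ht hD (fun i => b i * (-1) ^ d i) d al e
      (fun j s => u j s * (-1) ^ e j s) hal hd he
      (fun j => by
        obtain ⟨s, hs⟩ := hu j
        exact ⟨s, mul_ne_zero hs (pow_ne_zero _ (by norm_num))⟩) A Y hA hA1 hY l0
      (fun l => -x (l0 - l))
      (fun l hl => by
        have h1 := hx (l0 - (l + 1)) (by omega)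
        have h2 : l0 - (l + 1) + 1 = l0 - l := by omega
        rw [h2] at h1
        exact neg_lt_neg h1)
      (fun l hl => by
        have h1 := hxY (l0 - l) (by omega)
        rw [abs_of_neg (hneg l hl)] at h1
        exact h1)
      (fun l hl => by
        obtain ⟨z, ⟨hz1, hz2⟩, hz3⟩ := hz (l0 - (l + 1)) (by omega)
        have h2 : l0 - (l + 1) + 1 = l0 - l := by omega
        rw [h2] at hz2
        refine ⟨-z, ⟨neg_lt_neg hz2, neg_lt_neg hz1⟩, ?_⟩
        rw [ev_neg, neg_neg]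
        exact hz3)
      (fun l hl => by
        rw [ev_neg, neg_neg]
        exact hne (l0 - l) (by omega))
      (fun l hl i => by
        rw [ev_neg, neg_neg, sz_neg]
        have h1 := hh (l0 - l) (by omega) i
        rw [abs_of_neg (hneg l hl)] at h1
        exact h1)
    exact hX3
  by_cases hall : ∀ l, l ≤ N → x l < 0
  · have h1 := hNeg N le_rfl (hall N le_rfl)
    have h2 : (0 : ℝ) ≤ N := Nat.cast_nonneg N
    linarith
  · push Not at hall
    classical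
    have hex : ∃ l, l ≤ N ∧ 0 < x l := by
      obtain ⟨l, hl, h⟩ := hall
      exact ⟨l, hl, lt_of_le_of_ne h (hx0 l hl).symm⟩
    set l0 := Nat.find hex with hl0
    obtain ⟨h1, h2⟩ := Nat.find_spec hex
    have h3 := hP l0 h1 h2
    rcases Nat.eq_zero_or_pos l0 with h4 | h4
    · rw [h4, Nat.sub_zero] at h3
      have h5 : (0 : ℝ) ≤ N := Nat.cast_nonneg N
      linarith
    · have h5 : x (l0 - 1) < 0 := by
        have h6 := Nat.find_min hex (m := l0 - 1) (by omega)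
        push Not at h6
        exact lt_of_le_of_ne (h6 (by omega)) (hx0 _ (by omega))
      have h7 := hNeg (l0 - 1) (by omega) h5
      have h8 : ((l0 - 1 : ℕ) : ℝ) + ((N - l0 : ℕ) : ℝ) + 1 = N := by
        rw [Nat.cast_sub h4, Nat.cast_sub h1]
        push_cast
        ring
      linarith

end asm1

end Pool.Agent.T9h20.TF
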