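import Pool.Agent.T9h20.TF.Spec

/-!
# Many zeros near the centre of a disc
-/

set_option autoImplicit false

open Set Filter Topology Metric

namespace Pool.Agent.T9h20.TF

theorem sZero : SZero := by
  intro f w R M Z
  induction Z using Finset.induction_on generalizing f M with
  | empty =>
    intro hR hf hM _
    have := hM w (by rw [sub_self, norm_zero]; exact hR.le)
    simpa using this
  | insert z1 Z hz1 ih =>
    intro hR hf hM hZ
    obtain ⟨h1, h2⟩ := hZ z1 (Finset.mem_insert_self _ _)
    set g : ℂ → ℂ := dslope f z1 with hg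
    have hgd : Differentiable ℂ g := by
      have h3 : DifferentiableOn ℂ (dslope f z1) Set.univ :=
        (Complex.differentiableOn_dslope Filter.univ_mem).mpr hf.differentiableOn
      exact differentiableOn_univ.mp h3
    have hfg : ∀ z, f z = (z - z1) * g z := by
      intro z
      have h3 := sub_smul_dslope f z1 z
      rw [h2, sub_zero, smul_eq_mul] at h3
      exact h3.symm
    have hM0 : 0 ≤ M := (norm_nonneg _).trans (hM w (by rw [sub_self, norm_zero]; exact hR.le))
    have hsph : ∀ z, ‖z - w‖ = R → ‖g z‖ ≤ M / (3 * R / 4) := by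
      intro z hz
      have h3 : 3 * R / 4 ≤ ‖z - z1‖ := by
        have h4 : ‖z - w‖ ≤ ‖z - z1‖ + ‖z1 - w‖ := norm_sub_le_norm_sub_add_norm_sub _ _ _
        linarith
      have h5 := hM z hz.le
      rw [hfg z, norm_mul] at h5
      rw [le_div_iff₀ (by positivity)]
      have h6 : ‖g z‖ * (3 * R / 4) ≤ ‖g z‖ * ‖z - z1‖ :=
        mul_le_mul_of_nonneg_left h3 (norm_nonneg _)
      linarith
    have hball : ∀ z, ‖z - w‖ ≤ R → ‖g z‖ ≤ M / (3 * R / 4) := by
      intro z hz
      have h3 : DiffContOnCl ℂ g (ball w R) := hgd.diffContOnCl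
      refine Complex.norm_le_of_forall_mem_frontier_norm_le isBounded_ball h3 ?_ ?_
      · intro x hx
        rw [frontier_ball w hR.ne'] at hx
        exact hsph x (by rw [← dist_eq_norm]; exact mem_sphere.mp hx)
      · rw [closure_ball w hR.ne', mem_closedBall, dist_eq_norm]
        exact hz
    have h7 := ih g (M / (3 * R / 4)) hR hgd hball (by
      intro z hz
      obtain ⟨h8, h9⟩ := hZ z (Finset.mem_insert_of_mem hz)
      refine ⟨h8, ?_⟩
      rw [hfg z] at h9
      rcases mul_eq_zero.mp h9 with h | h
      · exfalso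
        rw [sub_eq_zero] at h
        exact hz1 (h ▸ hz)
      · exact h)
    rw [hfg w, norm_mul, Finset.card_insert_of_notMem hz1, pow_succ]
    have h10 : ‖w - z1‖ ≤ R / 4 := by rw [norm_sub_rev]; exact h1
    calc ‖w - z1‖ * ‖g w‖ ≤ (R / 4) * (M / (3 * R / 4) * (1 / 3) ^ Z.card) :=
          mul_le_mul h10 h7 (norm_nonneg _) (by positivity)
      _ = M * ((1 / 3) ^ Z.card * (1 / 3)) := by
          field_simp

end Pool.Agent.T9h20.TF
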