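import Pool.Agent.T9h20.TF.Asm1
import Pool.Agent.T9h20.TF.Zero
import Pool.Agent.T9h52.TF.Cell
import Pool.Agent.T9h89.TF.Bd
import Pool.Agent.T9h91.TF.Gr
import Pool.Agent.T9h19.TF.Loc
import Pool.Agent.T9h75.TF.Alt
import Pool.Agent.T9h22.TF.Dec
import Pool.Agent.T9h26.TF.Tot

/-!
# Alternations of bounded relative height: assembly
-/

set_option autoImplicit false

namespace Pool.Agent.T9h20.TF

theorem sTot (hE : SEnv) : STot :=
  Pool.Agent.T9h26.TF.sTot (Pool.Agent.T9h75.TF.sAlt sZero Pool.Agent.T9h52.TF.sCell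
    (Pool.Agent.T9h19.TF.sLoc Pool.Agent.T9h89.TF.sBd Pool.Agent.T9h91.TF.sGr hE))
    Pool.Agent.T9h22.TF.sDec

end Pool.Agent.T9h20.TF
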