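import Pool.Agent.T9h20.TF.Fin
import Pool.Agent.T9h67.TF.Env

/-!
# Alternations of bounded relative height: all pieces
-/

set_option autoImplicit false

namespace Pool.Agent.T9h20.TF

theorem sTot' : STot := sTot Pool.Agent.T9h67.TF.sEnv

end Pool.Agent.T9h20.TF
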