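import Pool.Agent.T9h20.TE.Split2

/-!
# Sign alternations of bounded relative height: definitions and pieces

Deterministic, worst case. `F(y) = ∑ i, b_i exp (d_i y) ∏ j, (∑ s, c_js exp (a_js y)) ^ α_ij`,
`MM i y = |b_i| exp (d_i y) ∏ j, (max_s |c_js| exp (a_js y)) ^ α_ij`. If `F` alternates in sign at
`y_0 < ... < y_N` and `|F(y_l)| ≥ A MM i (y_l)` for all `i, l`, then
`N = O(k^2 q t log (Y D) (log k + m log t + log (1 / A)))`.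
-/

set_option autoImplicit false

open MeasureTheory Set Filter Topology

namespace Pool.Agent.T9h20.TF

open Pool.Agent.T9h20.TA (mon mx)
open Pool.Agent.T9h20.TE (DD)

/-- The expression on the real line. -/
noncomputable def Fr {k q t : ℕ} (b d : Fin k → ℝ) (al : Fin k → Fin q → ℕ)
    (c a : Fin q → Fin t → ℝ) (y : ℝ) : ℝ :=
  ∑ i, b i * Real.exp (d i * y) * ∏ j, (∑ s, mon (c j) (a j) s y) ^ al i j

/-- The expression on the complex plane. -/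
noncomputable def Fc {k q t : ℕ} (b d : Fin k → ℝ) (al : Fin k → Fin q → ℕ)
    (c a : Fin q → Fin t → ℝ) (z : ℂ) : ℂ :=
  ∑ i, (b i : ℂ) * Complex.exp (d i * z) *
    ∏ j, (∑ s, (c j s : ℂ) * Complex.exp (a j s * z)) ^ al i j

/-- The size of the product `i`. -/
noncomputable def MM {k q t : ℕ} [NeZero t] (b d : Fin k → ℝ) (al : Fin k → Fin q → ℕ)
    (c a : Fin q → Fin t → ℝ) (i : Fin k) (y : ℝ) : ℝ :=
  |b i| * Real.exp (d i * y) * ∏ j, mx (c j) (a j) y ^ al i j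

/-! ## The pieces -/

/-- (Z) Many zeros near the centre of a disc. Induction on `Z`: for `z1 ∈ Z` the function
`g = dslope f z1` is entire, `f z = (z - z1) g z`, the other points of `Z` are zeros of `g`, and
`‖g‖ ≤ M / (3 R / 4)` on the sphere, hence (maximum modulus) on the disc. -/
def SZero : Prop := ∀ (f : ℂ → ℂ) (w : ℂ) (R M : ℝ) (Z : Finset ℂ), 0 < R → Differentiable ℂ f →
  (∀ z, ‖z - w‖ ≤ R → ‖f z‖ ≤ M) → (∀ z ∈ Z, ‖z - w‖ ≤ R / 4 ∧ f z = 0) →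
    ‖f w‖ ≤ M * (1 / 3) ^ Z.card

/-- (P) Cells. With `φ s = sign s * log (1 + |s|)` and `ψ y = ∑ b ∈ B, φ ((y - b) / η)`
(monotone, `|ψ| ≤ B.card * log (1 + 2 Y / η)` on `[-Y, Y]`): if `y ≤ y'` and
`ψ y' - ψ y ≤ 1 / 9`, then `y' - y ≤ (η + |y - b|) / 8` for all `b ∈ B` (`exp (1/9) ≤ 9/8`).
Divide the range of `ψ` into at most `18 B.card log (1 + 2 Y / η) + 1` cells of length `1 / 9`;
each contains at most `n + 1` of the points `y l`. -/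
def SCell : Prop := ∀ (B : Finset ℝ) (η Y : ℝ) (N n : ℕ) (y : ℕ → ℝ), 0 < η → 0 < Y →
  (∀ b ∈ B, |b| ≤ Y) → StrictMono y → (∀ l, l ≤ N → |y l| ≤ Y) →
  (∀ l l', l ≤ l' → l' ≤ N → (∀ b ∈ B, y l' - y l ≤ (η + |y l - b|) / 8) → l' - l ≤ n) →
    (N : ℝ) + 1 ≤ (18 * B.card * Real.log (1 + 2 * Y / η) + 1) * (n + 1)

/-- (B) The bound in the complex plane: `|∑ s, c_js exp (a_js z)| ≤ t mx_j (Re z)`. -/
def SBd : Prop := ∀ (k q t m : ℕ) [NeZero t] (b d : Fin k → ℝ) (al : Fin k → Fin q → ℕ)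
  (c a : Fin q → Fin t → ℝ), (∀ i, ∑ j, al i j ≤ m) → ∀ z : ℂ,
    ‖Fc b d al c a z‖ ≤ (t : ℝ) ^ m * ∑ i, MM b d al c a i z.re

/-- (G) Growth. -/
def SGr : Prop := ∀ (k q t m : ℕ) [NeZero t] (b d : Fin k → ℝ) (al : Fin k → Fin q → ℕ)
  (c a : Fin q → Fin t → ℝ) (D : ℝ), (∀ i, ∑ j, al i j ≤ m) → (∀ i, 0 ≤ d i ∧ d i ≤ D) →
  (∀ j s, 0 ≤ a j s ∧ a j s ≤ D) → ∀ (i : Fin k) (x y : ℝ),
    MM b d al c a i x ≤ MM b d al c a i y * Real.exp ((m + 1) * D * |x - y|)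

/-- (E) No crossing of the sizes near `y`, in a block `[p, r]` where the terms `s0 j` are
dominant: there `MM i x = β i exp (E i x)`, and `B` consists of `p`, `r` and the crossing points in
`(p, r)` of two different `MM i` (see `Pool.Agent.T9h81.TE.interval`, `cr`). -/
def SEnv : Prop := ∀ (k q t : ℕ) [NeZero t] (b d : Fin k → ℝ) (al : Fin k → Fin q → ℕ)
  (c a : Fin q → Fin t → ℝ) (s0 : Fin q → Fin t) (p r : ℝ), p < r →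
  (∀ j, ∃ s, c j s ≠ 0) → (∃ i, b i ≠ 0) →
  (∀ j, p ∈ DD (c j) (a j) (s0 j) ∧ r ∈ DD (c j) (a j) (s0 j)) →
  ∃ B : Finset ℝ, B.card ≤ k ^ 2 + 2 ∧ (∀ x ∈ B, p ≤ x ∧ x ≤ r) ∧
    ∀ y ∈ Icc p r, ∃ (i0 : Fin k) (E : ℝ), ∀ x, (∀ x' ∈ B, |x - y| < |x' - y|) → ∀ i,
      MM b d al c a i x ≤ MM b d al c a i0 y * Real.exp (E * (x - y))

/-- (L) The local bound, from (B), (G), (E), with `η = 1 / ((m + 1) D)` and
`δ = min over x' ∈ B of |x' - y|`. If `δ ≤ η`: `E = 0`, (G), `exp 1 ≤ 3`. If `δ > η`: (E). -/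
def SLoc : Prop := ∀ (k q t m : ℕ) [NeZero t] (b d : Fin k → ℝ) (al : Fin k → Fin q → ℕ)
  (c a : Fin q → Fin t → ℝ) (D : ℝ), 0 < D → (∀ i, ∑ j, al i j ≤ m) →
  (∀ i, 0 ≤ d i ∧ d i ≤ D) → (∀ j s, 0 ≤ a j s ∧ a j s ≤ D) →
  ∀ (s0 : Fin q → Fin t) (p r : ℝ), p < r → (∀ j, ∃ s, c j s ≠ 0) → (∃ i, b i ≠ 0) →
  (∀ j, p ∈ DD (c j) (a j) (s0 j) ∧ r ∈ DD (c j) (a j) (s0 j)) →
  ∃ B : Finset ℝ, B.card ≤ k ^ 2 + 2 ∧ (∀ x ∈ B, p ≤ x ∧ x ≤ r) ∧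
    ∀ y ∈ Icc p r, ∀ R : ℝ, 0 < R → (∀ x' ∈ B, R ≤ (1 / ((m + 1) * D) + |y - x'|) / 2) →
      ∃ (i0 : Fin k) (E : ℝ), ∀ z : ℂ, ‖z - y‖ ≤ R →
        ‖Fc b d al c a z * Complex.exp (-(E * (z - y)))‖ ≤
          3 * (k * (t : ℝ) ^ m) * MM b d al c a i0 y

/-- (A) Alternations in one block, from (Z), (P), (L): `Y` bounds the block. If `y l` and `y l'`
are as in (P) (with `η = 1 / ((m + 1) D)`), then `F` has at least `l' - l` zeros in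
`[y l, y l']`, which is inside the disc of radius `R / 4` about `y l`,
`R = min over B of (η + |y l - x'|) / 2`, so `A MM ≤ |F(y l)| ≤ 3 k t^m MM 3^(-(l' - l))`. -/
def SAlt : Prop := ∀ (k q t m : ℕ) [NeZero t] (b d : Fin k → ℝ) (al : Fin k → Fin q → ℕ)
  (c a : Fin q → Fin t → ℝ) (D Y A : ℝ), 0 < D → 0 < Y → 0 < A → (∀ i, ∑ j, al i j ≤ m) →
  (∀ i, 0 ≤ d i ∧ d i ≤ D) → (∀ j s, 0 ≤ a j s ∧ a j s ≤ D) →
  ∀ (s0 : Fin q → Fin t) (p r : ℝ), p < r → -Y ≤ p → r ≤ Y → (∀ j, ∃ s, c j s ≠ 0) →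
  (∃ i, b i ≠ 0) → (∀ j, p ∈ DD (c j) (a j) (s0 j) ∧ r ∈ DD (c j) (a j) (s0 j)) →
  ∀ (N n : ℕ) (y : ℕ → ℝ), StrictMono y → (∀ l, l ≤ N → y l ∈ Icc p r) →
    (∀ l, l < N → ∃ z ∈ Ioo (y l) (y (l + 1)), Fr b d al c a z = 0) →
    (∀ l, l ≤ N → Fr b d al c a (y l) ≠ 0) →
    (∀ l, l ≤ N → ∀ i, A * MM b d al c a i (y l) ≤ |Fr b d al c a (y l)|) →
    3 * (k * (t : ℝ) ^ m) < A * 3 ^ (n + 1) →
      (N : ℝ) + 1 ≤
        (18 * ((k : ℝ) ^ 2 + 2) * Real.log (1 + 2 * Y * ((m + 1) * D)) + 1) * (n + 1)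

/-- (S) Decomposition of a window into at most `2 q t + 1` blocks (proof of
`Pool.Agent.T9h20.TE.sSplit2`, with the dominance stated). -/
def SDec : Prop := ∀ (q t : ℕ) [NeZero t] (c a : Fin q → Fin t → ℝ),
  (∀ j, ∃ s, c j s ≠ 0) → ∀ M : ℝ, 0 < M →
  ∃ (X : Finset ℝ) (nx : ℝ → ℝ) (s0 : ℝ → Fin q → Fin t),
    X.card ≤ 2 * q * t + 1 ∧ (∀ x ∈ X, x < nx x ∧ -M ≤ x ∧ nx x ≤ M) ∧
    (∀ y ∈ Ioo (-M) M, ∃ x ∈ X, y ∈ Ico x (nx x)) ∧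
    ∀ x ∈ X, ∀ j, x ∈ DD (c j) (a j) (s0 x j) ∧ nx x ∈ DD (c j) (a j) (s0 x j)

/-- (T) The whole window, from (A), (S): the indices `l` with `y l` in a given block
`[x, nx x)` are consecutive. -/
def STot : Prop := ∀ (k q t m : ℕ) [NeZero t] (b d : Fin k → ℝ) (al : Fin k → Fin q → ℕ)
  (c a : Fin q → Fin t → ℝ) (D Y A : ℝ), 0 < D → 0 < Y → 0 < A → (∀ i, ∑ j, al i j ≤ m) →
  (∀ i, 0 ≤ d i ∧ d i ≤ D) → (∀ j s, 0 ≤ a j s ∧ a j s ≤ D) → (∀ j, ∃ s, c j s ≠ 0) →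
  (∃ i, b i ≠ 0) →
  ∀ (N n : ℕ) (y : ℕ → ℝ), StrictMono y → (∀ l, l ≤ N → y l ∈ Ioo (-Y) Y) →
    (∀ l, l < N → ∃ z ∈ Ioo (y l) (y (l + 1)), Fr b d al c a z = 0) →
    (∀ l, l ≤ N → Fr b d al c a (y l) ≠ 0) →
    (∀ l, l ≤ N → ∀ i, A * MM b d al c a i (y l) ≤ |Fr b d al c a (y l)|) →
    3 * (k * (t : ℝ) ^ m) < A * 3 ^ (n + 1) →
      (N : ℝ) + 1 ≤ (2 * q * t + 1) *
        ((18 * ((k : ℝ) ^ 2 + 2) * Real.log (1 + 2 * Y * ((m + 1) * D)) + 1) * (n + 1))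

end Pool.Agent.T9h20.TF
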